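import Pool.Agent.Q282.UZ.Sys

/-!
# Comparison maps, alterations and three-term bilinear systems

For two families of modules `A j X`, `B j X` with localization sequences and a natural transformation
`ρ`, the schemes `X` such that `ρ` is bijective in all degrees `j` have the closure properties `Clo`.  A
principle of dévissage by alterations (de Jong) reduces a property with these closure properties, which
descends along finite flat surjective morphisms, to the proper (regular) schemes.
-/

set_option autoImplicit false

open CategoryTheory CategoryTheory.Limits AlgebraicGeometry MvPolynomial Pool.Agent.Y116.UV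
  Pool.Agent.Q193.LT Pool.Agent.Q282.UK Pool.Agent.Q282.UZ

universe w w'

namespace Pool.Agent.U745.UN

variable {R : Type} [CommRing R] {ι : Type} {E : Type w'} [CommRing E]

/-- Two families of modules with a comparison map: invariance under isomorphisms; compatible long exact
sequences `⋯ → A_j Z → A_j X → A_j U → A_{δ j} Z → ⋯` for a closed subscheme `Z` of `X` and its
complement `U`; for an algebra `B` of finite type, the comparison map in degree `j` for `X = Spec B` is a
direct factor of the one in degree `σ j` for `X × 𝔾_m = Spec B[t, t⁻¹]`. -/
structure IsLocalPair (sep : Prop) (D : PairData.{w} R ι E) (δ σ : ι ≃ ι) : Prop where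
  iso : ∀ {X Y : Sch R}, FT sep X → Nonempty (X ≅ Y) → ∀ j, SameAt D j X j Y
  les : ∀ {Z X U : Sch R} (i : Z ⟶ X) (j : U ⟶ X), FT sep X → IsTriple i j → LesPair D δ Z X U
  torus : ∀ (B : Type) [CommRing B] [Algebra R B] [Algebra.FiniteType R B] (q : ι),
    FactorAt D q (aff R B) (σ q) (aff R (LaurentPolynomial B))

/-- The schemes for which the comparison map is bijective in all degrees. -/
theorem clo_pair {sep : Prop} {D : PairData.{w} R ι E} {δ σ : ι ≃ ι} (hD : IsLocalPair sep D δ σ) :
    Clo sep (BijAll D) where
  iso hX e h j := (hD.iso hX e j).iff.mp (h j)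
  total i j hX ht hZ hU := (hD.les i j hX ht).mid hZ hU
  opened i j hX ht hZ hX' := (hD.les i j hX ht).right hZ hX'
  torus B _ _ _ h q := (hD.torus B q).bij (h _)

/-- The property `P` descends along finite flat surjective morphisms of integral schemes. -/
def FinDesc (P : Sch R → Prop) : Prop :=
  ∀ {V U : Sch R} (f : V ⟶ U), FT True U → IsFinite f.left → Flat f.left →
    Surjective f.left → IsIntegral V.left → IsIntegral U.left → P V → P U

/-- The property `P` is closed under the steps of the dévissage by alterations: isomorphisms, closed-open
decompositions, and the passage from `V` to `U` for finite flat surjective morphisms `V → U` of integral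
schemes. -/
structure AltClosed (P : Sch R → Prop) : Prop where
  iso : ∀ {X Y : Sch R}, FT True X → Nonempty (X ≅ Y) → P X → P Y
  total : ∀ {Z X U : Sch R} (i : Z ⟶ X) (j : U ⟶ X), FT True X → IsTriple i j → P Z → P U → P X
  opened : ∀ {Z X U : Sch R} (i : Z ⟶ X) (j : U ⟶ X), FT True X → IsTriple i j → P Z → P X → P U
  finite : FinDesc P

/-- A property which is closed under the steps of the dévissage by alterations, and which is true for
all proper schemes with the property `Good`, is true for all separated schemes of finite type over `R`. -/
def AltPrinciple (R : Type) [CommRing R] (Good : Sch R → Prop) : Prop :=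
  ∀ P : Sch R → Prop, AltClosed P → (∀ X : Sch R, FT True X → IsProper X.hom → Good X → P X) →
    ∀ X : Sch R, FT True X → P X

variable {Good : Sch R → Prop} {P : Sch R → Prop}

theorem alt_iff (hA : AltPrinciple R Good) (hP : Clo True P) (hf : FinDesc P) :
    (∀ X : Sch R, FT True X → IsProper X.hom → Good X → P X) ↔ ∀ X : Sch R, FT True X → P X :=
  ⟨fun h => hA P ⟨hP.iso, hP.total, hP.opened, hf⟩ h, fun h X hX _ _ => h X hX⟩

/-- Proper schemes and three-term systems. -/
theorem alt_three (hR : ShortPresents R) (hA : AltPrinciple R Good) (hP : Clo True P)
    (hf : FinDesc P) :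
    (∀ X : Sch R, FT True X → IsProper X.hom → Good X → P X) ↔ ForThreeTerms P :=
  (alt_iff hA hP hf).trans (three_iff hR hP)

/-- Bijectivity of the comparison map descends if it is a direct factor. -/
theorem desc_pair {D : PairData.{w} R ι E}
    (h : ∀ {V U : Sch R} (f : V ⟶ U), FT True U → IsFinite f.left → Flat f.left →
      Surjective f.left → IsIntegral V.left → IsIntegral U.left → ∀ j, FactorAt D j U j V) :
    FinDesc (BijAll D) :=
  fun f hU h1 h2 h3 h4 h5 hV j => (h f hU h1 h2 h3 h4 h5 j).bij (hV j)

theorem short_mod (p : ℕ) [Fact p.Prime] : ShortPresents (ZMod p) :=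
  short_presents ZMod.intCast_surjective

end Pool.Agent.U745.UN
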